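import Pool.Agent.Work.MP_db9399_mad.Interface

/-!
# MP_db9399, THEOREM MAD, block BLOW
-/

set_option autoImplicit false

namespace Pool.Agent.Work.MP_db9399_mad.helper59

open Finset Classical
open Pool.Agent.Work.MP_db9399_mad

section
variable {Z : Type} [Fintype Z]

/-- sum over the neighbours in the base graph -/
theorem sum_nbr [DecidableEq Z] {R : Type} [AddCommMonoid R] (p : ZMod 11 → Equiv.Perm Z)
    (x : Z × ZMod 11) (f : Z × ZMod 11 → R) :
    ∑ y : Z × ZMod 11, (if x.2 ≠ y.2 ∧ y.1 = p (y.2 - x.2) x.1 then f y else 0)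
      = ∑ d ∈ univ.erase (0 : ZMod 11), f (p d x.1, x.2 + d) := by
  rw [Fintype.sum_prod_type_right]
  have h1 : ∀ h : ZMod 11, ∑ z : Z, (if x.2 ≠ h ∧ z = p (h - x.2) x.1 then f (z, h) else 0)
      = if x.2 ≠ h then f (p (h - x.2) x.1, h) else 0 := by
    intro h
    by_cases hh : x.2 = h
    · simp [hh]
    · simp [hh]
  have h2 : ∑ h : ZMod 11, ∑ z : Z, (if x.2 ≠ h ∧ z = p (h - x.2) x.1 then f (z, h) else 0)
      = ∑ h : ZMod 11, if x.2 ≠ h then f (p (h - x.2) x.1, h) else 0 :=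
    Finset.sum_congr rfl (fun h _ => h1 h)
  refine h2.trans ?_
  rw [← Equiv.sum_comp (Equiv.addLeft x.2)]
  simp only [Equiv.coe_addLeft, add_sub_cancel_left]
  rw [← Finset.sum_filter]
  refine Finset.sum_congr ?_ (fun d _ => rfl)
  ext d
  simp

theorem sum_shift (p : ZMod 11 → Equiv.Perm Z) (d : ZMod 11) (f : Z × ZMod 11 → ℝ) :
    ∑ x : Z × ZMod 11, f (p d x.1, x.2 + d) = ∑ x, f x := by
  have := Equiv.sum_comp ((p d).prodCongr (Equiv.addRight d)) f
  rw [← this]
  refine Finset.sum_congr rfl (fun x _ => ?_)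
  rfl

/-- the bilinear form -/
noncomputable def M (p : ZMod 11 → Equiv.Perm Z) (a b : Z × ZMod 11 → ℝ) : ℝ :=
  ∑ x : Z × ZMod 11, ∑ d ∈ univ.erase (0 : ZMod 11), a x * b (p d x.1, x.2 + d)

theorem card_er : (univ.erase (0 : ZMod 11)).card = 10 := by decide

theorem M_add (p : ZMod 11 → Equiv.Perm Z) (a b : Z × ZMod 11 → ℝ) :
    M p (fun x => a x + b x) (fun x => a x + b x)
      - M p (fun x => a x - b x) (fun x => a x - b x) = 2 * (M p a b + M p b a) := by
  unfold M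
  rw [← Finset.sum_sub_distrib, ← Finset.sum_add_distrib, Finset.mul_sum]
  refine Finset.sum_congr rfl (fun x _ => ?_)
  rw [← Finset.sum_sub_distrib, ← Finset.sum_add_distrib, Finset.mul_sum]
  refine Finset.sum_congr rfl (fun d _ => ?_)
  ring

theorem M_mean (p : ZMod 11 → Equiv.Perm Z) (w : Z × ZMod 11 → ℝ) (m : ℝ) (h0 : ∑ x, w x = 0) :
    M p (fun x => m + w x) (fun x => m + w x)
      = 10 * (Fintype.card (Z × ZMod 11) : ℝ) * m ^ 2 + M p w w := by
  have h1 : M p (fun x => m + w x) (fun x => m + w x)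
      = ∑ x : Z × ZMod 11, ∑ d ∈ univ.erase (0 : ZMod 11), (m ^ 2 + m * w (p d x.1, x.2 + d)
        + m * w x + w x * w (p d x.1, x.2 + d)) := by
    unfold M
    refine Finset.sum_congr rfl (fun x _ => Finset.sum_congr rfl (fun d _ => ?_))
    ring
  rw [h1]
  simp only [Finset.sum_add_distrib]
  have h2 : ∑ x : Z × ZMod 11, ∑ d ∈ univ.erase (0 : ZMod 11), m * w (p d x.1, x.2 + d) = 0 := by
    rw [Finset.sum_comm]
    refine Finset.sum_eq_zero (fun d _ => ?_)
    rw [← Finset.mul_sum, sum_shift p d w, h0, mul_zero]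
  have h3 : ∑ x : Z × ZMod 11, ∑ d ∈ univ.erase (0 : ZMod 11), m * w x = 0 := by
    simp only [Finset.sum_const, card_er, nsmul_eq_mul]
    rw [← Finset.mul_sum, ← Finset.mul_sum, h0]
    ring
  have h4 : ∑ x : Z × ZMod 11, ∑ d ∈ univ.erase (0 : ZMod 11), m ^ 2
      = 10 * (Fintype.card (Z × ZMod 11) : ℝ) * m ^ 2 := by
    simp only [Finset.sum_const, card_er, nsmul_eq_mul, Finset.card_univ]
    push_cast
    ring
  rw [h2, h3, h4]
  unfold M
  ring

theorem M_bound (p : ZMod 11 → Equiv.Perm Z) (μ : ℝ) (hZ : Nonempty Z)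
    (hq : ∀ u : Z × ZMod 11 → ℝ, ∑ x, u x = 0 →
      |∑ x : Z × ZMod 11, ∑ d ∈ univ.erase (0 : ZMod 11), u x * u (p d x.1, x.2 + d)|
        ≤ μ * ∑ x, u x ^ 2) (w : Z × ZMod 11 → ℝ) :
    |M p w w - 10 * (∑ x, w x) ^ 2 / (Fintype.card (Z × ZMod 11) : ℝ)|
      ≤ μ * (∑ x, w x ^ 2 - (∑ x, w x) ^ 2 / (Fintype.card (Z × ZMod 11) : ℝ)) := by
  set P : ℝ := (Fintype.card (Z × ZMod 11) : ℝ) with hP
  have hP0 : 0 < P := by
    rw [hP]
    exact_mod_cast Fintype.card_pos
  set m : ℝ := (∑ x, w x) / P with hm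
  have hS : ∑ x, w x = P * m := by
    rw [hm]
    field_simp
  have h0 : ∑ x, (w x - m) = 0 := by
    rw [Finset.sum_sub_distrib, Finset.sum_const, Finset.card_univ, nsmul_eq_mul, ← hP, hS]
    ring
  have h1 := M_mean p (fun x => w x - m) m h0
  have h2 : (fun x => m + (w x - m)) = w := by
    funext x
    ring
  rw [h2, ← hP] at h1
  have h3 := hq (fun x => w x - m) h0
  have h4 : ∑ x, (w x - m) ^ 2 = ∑ x, w x ^ 2 - P * m ^ 2 := by
    have : ∀ x, (w x - m) ^ 2 = w x ^ 2 - 2 * m * w x + m ^ 2 := fun x => by ring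
    simp only [this]
    rw [Finset.sum_add_distrib, Finset.sum_sub_distrib, ← Finset.mul_sum, hS, Finset.sum_const,
      Finset.card_univ, nsmul_eq_mul, ← hP]
    ring
  rw [h4] at h3
  have h5 : (∑ x, w x) ^ 2 / P = P * m ^ 2 := by
    rw [hS]
    field_simp
  have h6 : 10 * (∑ x, w x) ^ 2 / P = 10 * P * m ^ 2 := by
    rw [mul_div_assoc, h5]
    ring
  rw [h5, h6, h1]
  have h7 : 10 * P * m ^ 2 + M p (fun x => w x - m) (fun x => w x - m) - 10 * P * m ^ 2
      = M p (fun x => w x - m) (fun x => w x - m) := by ring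
  rw [h7]
  exact h3

/-- number of elements of `A` over `x` -/
noncomputable def al {s : ℕ} (A : Finset ((Z × ZMod 11) × Fin s)) (x : Z × ZMod 11) : ℝ :=
  ∑ i : Fin s, (if (x, i) ∈ A then (1 : ℝ) else 0)

theorem al_nonneg {s : ℕ} (A : Finset ((Z × ZMod 11) × Fin s)) (x : Z × ZMod 11) :
    0 ≤ al A x := by
  classical
  unfold al
  refine Finset.sum_nonneg (fun i _ => ?_)
  split_ifs <;> norm_num

theorem al_le {s : ℕ} (A : Finset ((Z × ZMod 11) × Fin s)) (x : Z × ZMod 11) :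
    al A x ≤ s := by
  classical
  unfold al
  calc ∑ i : Fin s, (if (x, i) ∈ A then (1 : ℝ) else 0) ≤ ∑ i : Fin s, (1 : ℝ) := by
        refine Finset.sum_le_sum (fun i _ => ?_)
        split_ifs <;> norm_num
    _ = s := by simp

theorem al_sum {s : ℕ} (A : Finset ((Z × ZMod 11) × Fin s)) :
    ∑ x : Z × ZMod 11, al A x = (A.card : ℝ) := by
  classical
  have h1 : ∑ y : (Z × ZMod 11) × Fin s, (if y ∈ A then (1 : ℝ) else 0) = A.card := by
    simp
  rw [← h1]
  exact (Fintype.sum_prod_type (fun y : (Z × ZMod 11) × Fin s =>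
    (if y ∈ A then (1 : ℝ) else 0))).symm

theorem inter_eq (p : ZMod 11 → Equiv.Perm Z) (hp : ∀ d, p (-d) = (p d)⁻¹) (s : ℕ)
    [DecidableRel (LG p hp s).Adj] (A B : Finset ((Z × ZMod 11) × Fin s)) :
    (((LG p hp s).interedges A B).card : ℝ) = M p (al A) (al B) := by
  classical
  have h1 : (((LG p hp s).interedges A B).card : ℝ)
      = ∑ a ∈ A, ∑ b ∈ B, (if (LG p hp s).Adj a b then (1 : ℝ) else 0) := by
    unfold SimpleGraph.interedges Rel.interedges
    rw [Finset.card_filter, Finset.sum_product]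
    push_cast
    rfl
  rw [h1]
  have h2 : ∑ a ∈ A, ∑ b ∈ B, (if (LG p hp s).Adj a b then (1 : ℝ) else 0)
      = ∑ a : (Z × ZMod 11) × Fin s, ∑ b : (Z × ZMod 11) × Fin s,
        (if a ∈ A then (1 : ℝ) else 0) * ((if b ∈ B then (1 : ℝ) else 0)
          * (if (LG p hp s).Adj a b then (1 : ℝ) else 0)) := by
    rw [← Finset.sum_filter_add_sum_filter_not univ (fun a => a ∈ A)]
    rw [Finset.sum_eq_zero (s := univ.filter (fun a => ¬ a ∈ A)) (fun a ha => by
      have := (Finset.mem_filter.mp ha).2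
      simp [this]), add_zero]
    have e1 : univ.filter (fun a => a ∈ A) = A := by
      ext a
      simp
    rw [e1]
    refine Finset.sum_congr rfl (fun a ha => ?_)
    rw [← Finset.sum_filter_add_sum_filter_not univ (fun b => b ∈ B)]
    rw [Finset.sum_eq_zero (s := univ.filter (fun b => ¬ b ∈ B)) (fun b hb => by
      have := (Finset.mem_filter.mp hb).2
      simp [this]), add_zero]
    have e2 : univ.filter (fun b => b ∈ B) = B := by
      ext b
      simp
    rw [e2]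
    refine Finset.sum_congr rfl (fun b hb => ?_)
    simp [ha, hb]
  rw [h2, Fintype.sum_prod_type]
  unfold M
  refine Finset.sum_congr rfl (fun x _ => ?_)
  have h3 : ∀ i : Fin s, ∑ b : (Z × ZMod 11) × Fin s,
        (if (x, i) ∈ A then (1 : ℝ) else 0) * ((if b ∈ B then (1 : ℝ) else 0)
          * (if (LG p hp s).Adj (x, i) b then (1 : ℝ) else 0))
      = (if (x, i) ∈ A then (1 : ℝ) else 0) * ∑ d ∈ univ.erase (0 : ZMod 11),
          al B (p d x.1, x.2 + d) := by
    intro i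
    rw [← Finset.mul_sum]
    congr 1
    rw [← sum_nbr p x (al B), Fintype.sum_prod_type]
    refine Finset.sum_congr rfl (fun y _ => ?_)
    have h4 : ∀ j : Fin s, (LG p hp s).Adj (x, i) (y, j) ↔ (x.2 ≠ y.2 ∧ y.1 = p (y.2 - x.2) x.1) :=
      fun j => Iff.rfl
    by_cases h5 : x.2 ≠ y.2 ∧ y.1 = p (y.2 - x.2) x.1
    · rw [if_pos h5]
      unfold al
      refine Finset.sum_congr rfl (fun j _ => ?_)
      rw [if_pos ((h4 j).mpr h5), mul_one]
    · rw [if_neg h5]
      refine Finset.sum_eq_zero (fun j _ => ?_)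
      rw [if_neg (fun h => h5 ((h4 j).mp h)), mul_zero]
  rw [Finset.sum_congr rfl (fun i _ => h3 i), ← Finset.sum_mul, ← Finset.mul_sum]
  congr 1

theorem deg_eq (p : ZMod 11 → Equiv.Perm Z) (hp : ∀ d, p (-d) = (p d)⁻¹) (s : ℕ)
    [DecidableRel (LG p hp s).Adj] (x : (Z × ZMod 11) × Fin s) :
    (LG p hp s).degree x = 10 * s := by
  classical
  obtain ⟨x, i⟩ := x
  have h1 : (LG p hp s).degree (x, i)
      = ∑ b : (Z × ZMod 11) × Fin s, (if (LG p hp s).Adj (x, i) b then 1 else 0) := by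
    rw [← SimpleGraph.card_neighborFinset_eq_degree, SimpleGraph.neighborFinset_eq_filter,
      Finset.card_filter]
  rw [h1, Fintype.sum_prod_type]
  have h2 : ∀ y : Z × ZMod 11, ∑ j : Fin s, (if (LG p hp s).Adj (x, i) (y, j) then 1 else 0)
      = if x.2 ≠ y.2 ∧ y.1 = p (y.2 - x.2) x.1 then s else 0 := by
    intro y
    have h4 : ∀ j : Fin s, (LG p hp s).Adj (x, i) (y, j) ↔ (x.2 ≠ y.2 ∧ y.1 = p (y.2 - x.2) x.1) :=
      fun j => Iff.rfl
    by_cases h5 : x.2 ≠ y.2 ∧ y.1 = p (y.2 - x.2) x.1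
    · rw [if_pos h5, Finset.sum_congr rfl (fun j _ => if_pos ((h4 j).mpr h5))]
      simp
    · rw [if_neg h5]
      exact Finset.sum_eq_zero (fun j _ => if_neg (fun h => h5 ((h4 j).mp h)))
  rw [Finset.sum_congr rfl (fun y _ => h2 y), sum_nbr p x (fun _ => s), Finset.sum_const, card_er,
    smul_eq_mul]

end

theorem stmt_BLOW : Stmt_BLOW := by
  intro Z _ p hp μ s _ hμ0 hμ hZ hs hq
  refine ⟨deg_eq p hp s, fun A B hA hB => ?_⟩
  classical
  have e1 := inter_eq p hp s A B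
  have e2 := inter_eq p hp s B A
  have e3 : ((LG p hp s).interedges A B).card = ((LG p hp s).interedges B A).card := by
    haveI : Std.Symm (LG p hp s).Adj := ⟨fun _ _ h => h.symm⟩
    unfold SimpleGraph.interedges
    exact Rel.card_interedges_comm A B
  set P : ℝ := (Fintype.card (Z × ZMod 11) : ℝ) with hP
  have hP0 : 0 < P := by
    rw [hP]
    exact_mod_cast Fintype.card_pos
  set e : ℝ := (((LG p hp s).interedges A B).card : ℝ) with he
  have e4 : M p (al B) (al A) = e := by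
    rw [← e2, he, e3]
  have b1 := M_bound p μ hZ hq (fun x => al A x + al B x)
  have b2 := M_bound p μ hZ hq (fun x => al A x - al B x)
  have b3 := M_add p (al A) (al B)
  rw [← e1, e4] at b3
  rw [← hP] at b1 b2
  rw [Finset.sum_add_distrib, al_sum, al_sum] at b1
  rw [Finset.sum_sub_distrib, al_sum, al_sum] at b2
  have s1 : ∑ x, (al A x + al B x) ^ 2 + ∑ x, (al A x - al B x) ^ 2
      = 2 * ∑ x, al A x ^ 2 + 2 * ∑ x, al B x ^ 2 := by
    rw [← Finset.sum_add_distrib, Finset.mul_sum, Finset.mul_sum, ← Finset.sum_add_distrib]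
    refine Finset.sum_congr rfl (fun x _ => ?_)
    ring
  have sq : ∀ C : Finset ((Z × ZMod 11) × Fin s), ∑ x, al C x ^ 2 ≤ s * C.card := by
    intro C
    rw [← al_sum C, Finset.mul_sum]
    refine Finset.sum_le_sum (fun x _ => ?_)
    nlinarith [al_nonneg C x, al_le C x]
  have sA := sq A
  have sB := sq B
  have hc : (Fintype.card ((Z × ZMod 11) × Fin s) : ℝ) = P * s := by
    rw [Fintype.card_prod, Fintype.card_fin]
    push_cast
    rfl
  have hA' : 100 * (A.card : ℝ) ≤ 51 * (P * s) := by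
    rw [← hc]
    exact_mod_cast hA
  have hB' : 100 * (B.card : ℝ) ≤ 51 * (P * s) := by
    rw [← hc]
    exact_mod_cast hB
  set a : ℝ := (A.card : ℝ) with ha
  set b : ℝ := (B.card : ℝ) with hb
  have ha0 : 0 ≤ a := by positivity
  have hb0 : 0 ≤ b := by positivity
  have qa : a ^ 2 / P ≤ 51 / 100 * s * a := by
    rw [div_le_iff₀ hP0]
    nlinarith
  have qb : b ^ 2 / P ≤ 51 / 100 * s * b := by
    rw [div_le_iff₀ hP0]
    nlinarith
  have b1' := (abs_le.mp b1).2
  have b2' := (abs_le.mp b2).1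
  have r1 : 10 * (a + b) ^ 2 / P = 10 * (a ^ 2 / P) + 10 * (b ^ 2 / P) + 20 * (a * b / P) := by
    field_simp
    ring
  have r2 : 10 * (a - b) ^ 2 / P = 10 * (a ^ 2 / P) + 10 * (b ^ 2 / P) - 20 * (a * b / P) := by
    field_simp
    ring
  have r3 : (a + b) ^ 2 / P = (a ^ 2 / P) + (b ^ 2 / P) + 2 * (a * b / P) := by
    field_simp
    ring
  have r4 : (a - b) ^ 2 / P = (a ^ 2 / P) + (b ^ 2 / P) - 2 * (a * b / P) := by
    field_simp
    ring
  have r5 : 2 * (a * b / P) ≤ a ^ 2 / P + b ^ 2 / P := by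
    have : 0 ≤ (a - b) ^ 2 / P := by positivity
    rw [r4] at this
    linarith
  rw [r1, r3] at b1'
  rw [r2, r4] at b2'
  have k1 : 4 * e ≤ 40 * (a * b / P) + μ * (2 * ∑ x, al A x ^ 2 + 2 * ∑ x, al B x ^ 2
      - 2 * (a ^ 2 / P + b ^ 2 / P)) := by
    nlinarith [b1', b2', b3, s1]
  have k2 : μ * (∑ x, al A x ^ 2 + ∑ x, al B x ^ 2) ≤ μ * (s * a + s * b) :=
    mul_le_mul_of_nonneg_left (add_le_add sA sB) hμ0
  have k3 : (10 - μ) * (a ^ 2 / P + b ^ 2 / P) ≤ (10 - μ) * (51 / 100 * s * a + 51 / 100 * s * b) :=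
    mul_le_mul_of_nonneg_left (add_le_add qa qb) (by linarith)
  nlinarith [k1, k2, k3, r5]

end Pool.Agent.Work.MP_db9399_mad.helper59
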